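import Pool.Agent.Results.MP_8d13b5_lc.SmoothedAnalysis
import Pool.Agent.V11312.PW.Vec

/-!
# The Skolem Problem: ALL inputs in residue classes near almost every point are easy

There is one total errorless algorithm `f`, increasing in its parameter, with the following property. Let `q_1, …, q_r` be
primes and `σ > 0`, `A > 1`. For all points `α` of the product of the `ℤ_(q_l) ^ (2d)`, a space of dimension `2 d r`, outside a set
of Hausdorff dimension at most `(2 d - δ) / σ` and all large `T`, ALL inputs of order `d` (coefficients and initial values) of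
size at most `T` which belong to the residue class of `α_l` modulo a power of `q_l` of size at least `T ^ σ`, for all `l`, are
certified to be zero-free by a prime `p ≤ (log s) ^ A`, where `s` is the size of the input itself.
-/

set_option autoImplicit false

open Filter Topology MeasureTheory

namespace Pool.Agent.Results.MP_8d13b5_lc.InputsInResidueClasses

open Pool.Agent.H884R2.Sko Pool.Agent.H692R2.USS
open Pool.Agent.V11312.PW

/-- The algorithm `f` with the parameter `⌊Y⌋` recognises that the sequence with the coefficients `c` (with `c_d ≠ 0`) and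
the initial values `a` has no zero, and there is a prime `p ≤ Y` modulo which the sequence has period `(p - 1) / 2` and no
zero term. -/
def Certified (f : ℕ × (List (ℕ × ℕ) × List (ℕ × ℕ)) → Bool) {d : ℕ} (hd : 1 ≤ d) (Y : ℝ) (c a : Fin d → ℤ) : Prop :=
  (c ⟨d - 1, by omega⟩ ≠ 0 → f (⌊Y⌋₊, (code c, code a)) = true) ∧
  ∃ p : ℕ, p.Prime ∧ (p : ℝ) ≤ Y ∧ ∀ u, IsSeq c a u →
    (∀ m, (p : ℤ) ∣ u (m + (p - 1) / 2) - u m) ∧ ∀ m, ¬ (p : ℤ) ∣ u m

/-- the input as an integer vector of length `2 d` -/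
def vec {d : ℕ} (c a : Fin d → ℤ) : Fin (d + d) → ℤ := Fin.append c a

/-- the size of an input: the largest absolute value of a coefficient or an initial value -/
noncomputable def size {d : ℕ} (c a : Fin d → ℤ) : ℝ := ‖fun i => (vec c a i : ℝ)‖

/-- the algorithm which tries all smaller parameters -/
def upTo {α : Type} (f : ℕ × α → Bool) (x : ℕ × α) : Bool :=
  Nat.rec (f (0, x.2)) (fun k r => r || f (k + 1, x.2)) x.1

theorem upTo_iff {α : Type} (f : ℕ × α → Bool) (p : α) (y : ℕ) :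
    upTo f (y, p) = true ↔ ∃ z, z ≤ y ∧ f (z, p) = true := by
  induction y with
  | zero =>
    constructor
    · intro h
      exact ⟨0, le_rfl, h⟩
    · rintro ⟨z, hz, h⟩
      obtain rfl := Nat.le_zero.1 hz
      exact h
  | succ y ih =>
    have e : upTo f (y + 1, p) = (upTo f (y, p) || f (y + 1, p)) := rfl
    rw [e, Bool.or_eq_true, ih]
    constructor
    · rintro (⟨z, hz, h⟩ | h)
      · exact ⟨z, hz.trans (Nat.le_succ y), h⟩
      · exact ⟨y + 1, le_rfl, h⟩
    · rintro ⟨z, hz, h⟩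
      rcases Nat.lt_or_ge z (y + 1) with h1 | h1
      · exact Or.inl ⟨z, Nat.lt_succ_iff.1 h1, h⟩
      · obtain rfl : z = y + 1 := le_antisymm hz h1
        exact Or.inr h

theorem computable_upTo {α : Type} [Primcodable α] {f : ℕ × α → Bool} (hf : Computable f) : Computable (upTo f) := by
  unfold upTo
  refine Computable.nat_rec (f := fun x : ℕ × α => x.1) (g := fun x : ℕ × α => f (0, x.2))
    (h := fun (x : ℕ × α) (q : ℕ × Bool) => q.2 || f (q.1 + 1, x.2)) Computable.fst ?_ ?_
  · exact hf.comp (Computable.pair (Computable.const 0) Computable.snd)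
  · refine (Primrec.or.to_comp).comp₂ ?_ ?_
    · exact (Computable.snd.comp Computable.snd).to₂
    · exact (hf.comp (Computable.pair (Computable.succ.comp (Computable.fst.comp Computable.snd))
        (Computable.snd.comp Computable.fst))).to₂

theorem vec_injective {d : ℕ} : Function.Injective (fun t : (Fin d → ℤ) × (Fin d → ℤ) => vec t.1 t.2) := by
  rintro ⟨c, a⟩ ⟨c', a'⟩ h
  have h1 : c = c' := by
    funext i
    have := congrFun h (Fin.castAdd d i)
    simpa [vec] using this
  have h2 : a = a' := by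
    funext i
    have h3 : Fin.append c a (Fin.natAdd d i) = Fin.append c' a' (Fin.natAdd d i) := congrFun h (Fin.natAdd d i)
    rwa [Fin.append_right, Fin.append_right] at h3
  rw [h1, h2]

/-- the inputs of size at most `X` -/
theorem inputs_count {d : ℕ} {X : ℝ} (hX : 1 ≤ X) :
    {t : (Fin d → ℤ) × (Fin d → ℤ) | ∀ j, |(vec t.1 t.2 j : ℝ)| ≤ X}.Finite ∧
      ({t : (Fin d → ℤ) × (Fin d → ℤ) | ∀ j, |(vec t.1 t.2 j : ℝ)| ≤ X}.ncard : ℝ) ≤ (3 * X) ^ (2 * d) := by
  obtain ⟨h1, h2⟩ := box_count (K := Fin (d + d)) hX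
  have hsub : (fun t : (Fin d → ℤ) × (Fin d → ℤ) => vec t.1 t.2) ''
      {t : (Fin d → ℤ) × (Fin d → ℤ) | ∀ j, |(vec t.1 t.2 j : ℝ)| ≤ X} ⊆ {t : Fin (d + d) → ℤ | ∀ j, |(t j : ℝ)| ≤ X} := by
    rintro _ ⟨t, ht, rfl⟩
    exact ht
  refine ⟨Set.Finite.of_finite_image (h1.subset hsub) vec_injective.injOn, ?_⟩
  rw [← Set.ncard_image_of_injective _ vec_injective]
  have h3 := Set.ncard_le_ncard hsub h1
  rw [Fintype.card_fin] at h2
  calc _ ≤ ({t : Fin (d + d) → ℤ | ∀ j, |(t j : ℝ)| ≤ X}.ncard : ℝ) := by exact_mod_cast h3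
    _ ≤ (3 * X) ^ (d + d) := h2
    _ = (3 * X) ^ (2 * d) := by rw [two_mul]

/-- **All inputs in residue classes near almost every point.** There is a total computable errorless `f`, increasing in
its parameter, such that for all orders `d` and all `A > 1` there is `0 < δ ≤ 1` with the following property. Let `q_1, …, q_r`
be primes and `σ > 0`. For all points `α` of the product of the `ℤ_(q_l) ^ (2d)` outside a set of Hausdorff dimension at most
`(2 d - δ) / σ` there is `T₀` such that for all `T ≥ T₀` ALL inputs `(c, a)` with entries of absolute value at most `T` and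
`|(c, a)_i - α_(l,i)| ≤ T ^ (-σ)` in `ℤ_(q_l)`, for all `l`, `i`, are certified with `Y = (log s) ^ A`, `s` the size of `(c, a)`. -/
theorem result :
    ∃ f : ℕ × (List (ℕ × ℕ) × List (ℕ × ℕ)) → Bool, Computable f ∧
      (∀ (y : ℕ) (p : List (ℕ × ℕ) × List (ℕ × ℕ)) (u : ℕ → ℤ), IsLRS p u → f (y, p) = true → ∀ n, u n ≠ 0) ∧
      (∀ (y z : ℕ) (p : List (ℕ × ℕ) × List (ℕ × ℕ)), y ≤ z → f (y, p) = true → f (z, p) = true) ∧
      (∀ (d : ℕ) (hd : 1 ≤ d) (A : ℝ), 1 < A → ∃ δ : ℝ, 0 < δ ∧ δ ≤ 1 ∧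
        ∀ (r : ℕ) (q : Fin r → ℕ) [∀ l, Fact (q l).Prime] (σ : ℝ), 0 < σ →
          ∃ E : Set (∀ l, Fin (d + d) → ℤ_[q l]), dimH E ≤ ENNReal.ofReal ((2 * d - δ) / σ) ∧
            ∀ α ∉ E, ∃ T₀ : ℝ, ∀ T ≥ T₀, ∀ c a : Fin d → ℤ, NearV q σ T α (vec c a) →
              Certified f hd (Real.log (size c a) ^ A) c a) := by
  classical
  obtain ⟨f, hf, herr, hmain⟩ := SmoothedAnalysis.result
  refine ⟨upTo f, computable_upTo hf, ?_, ?_, fun d hd A hA => ?_⟩
  · intro y p u hp hy
    obtain ⟨z, -, hz⟩ := (upTo_iff f p y).1 hy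
    exact herr z p u hp hz
  · intro y z p hyz hy
    obtain ⟨w, hw, hw2⟩ := (upTo_iff f p y).1 hy
    exact (upTo_iff f p z).2 ⟨w, hw.trans hyz, hw2⟩
  obtain ⟨δ₀, hδ₀, H₀, hH₀⟩ := hmain d hd ((1 + A) / 2) (by linarith)
  set δ : ℝ := min δ₀ 1 with hδ
  have hδp : 0 < δ := lt_min hδ₀ one_pos
  have hδ1 : δ ≤ 1 := min_le_right _ _
  have hd1 : (1 : ℝ) ≤ d := by exact_mod_cast hd
  refine ⟨δ, hδp, hδ1, fun r q _ σ hσ => ?_⟩
  obtain ⟨E, hE1, hE2⟩ := vec_classes (ι := Unit) (fun t : (Fin d → ℤ) × (Fin d → ℤ) => vec t.1 t.2)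
    (fun _ => {t : (Fin d → ℤ) × (Fin d → ℤ) | ¬ Certified (upTo f) hd (Real.log (size t.1 t.2) ^ A) t.1 t.2})
    (s := 2 * d - δ) (by linarith) (fun _ ε hε => by
      -- a scale from which on the logarithms compare
      have hexp : 0 < A - (1 + A) / 2 := by linarith
      have ht1 : Tendsto (fun y : ℝ => y ^ (A - (1 + A) / 2)) atTop atTop := tendsto_rpow_atTop hexp
      obtain ⟨L, hL⟩ := eventually_atTop.1 (ht1.eventually_ge_atTop ((4 : ℝ) ^ ((1 + A) / 2)))
      obtain ⟨X₁, hX₁1, hX₁2, hX₁3⟩ : ∃ X₁ : ℝ, 2 ≤ X₁ ∧ (H₀ : ℝ) ≤ X₁ ∧ 2 * max L 1 ≤ Real.log X₁ := by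
        refine ⟨max 2 (max (H₀ : ℝ) (Real.exp (2 * max L 1))), le_max_left _ _,
          (le_max_left _ _).trans (le_max_right _ _), ?_⟩
        rw [Real.le_log_iff_exp_le (lt_of_lt_of_le (by norm_num) (le_max_left _ _))]
        exact (le_max_right _ _).trans (le_max_right _ _)
      refine ⟨(3 * X₁) ^ (2 * d) + 3 ^ (2 * d) + 5 ^ (2 * d), fun X hX => ?_⟩
      have hX0 : 0 < X := by linarith
      obtain ⟨hfinX, hcardX⟩ := inputs_count (d := d) hX
      have hbad : {t : (Fin d → ℤ) × (Fin d → ℤ) | t ∈ {t : (Fin d → ℤ) × (Fin d → ℤ) |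
          ¬ Certified (upTo f) hd (Real.log (size t.1 t.2) ^ A) t.1 t.2} ∧ ∀ j, |(vec t.1 t.2 j : ℝ)| ≤ X} ⊆
          {t : (Fin d → ℤ) × (Fin d → ℤ) | ∀ j, |(vec t.1 t.2 j : ℝ)| ≤ X} := fun t ht => ht.2
      refine ⟨hfinX.subset hbad, ?_⟩
      have hpos : 1 ≤ X ^ (2 * (d : ℝ) - δ + ε) := Real.one_le_rpow hX (by linarith)
      by_cases hXX : X₁ ≤ X
      swap
      · push Not at hXX
        calc _ ≤ ({t : (Fin d → ℤ) × (Fin d → ℤ) | ∀ j, |(vec t.1 t.2 j : ℝ)| ≤ X}.ncard : ℝ) := by
              exact_mod_cast Set.ncard_le_ncard hbad hfinX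
          _ ≤ (3 * X) ^ (2 * d) := hcardX
          _ ≤ (3 * X₁) ^ (2 * d) := pow_le_pow_left₀ (by positivity) (by linarith) _
          _ ≤ ((3 * X₁) ^ (2 * d) + 3 ^ (2 * d) + 5 ^ (2 * d)) * 1 := by
              have h1 : (0 : ℝ) ≤ 3 ^ (2 * d) := by positivity
              have h2 : (0 : ℝ) ≤ 5 ^ (2 * d) := by positivity
              linarith
          _ ≤ _ := mul_le_mul_of_nonneg_left hpos (by positivity)
      -- the scale `H`
      set H : ℕ := ⌈X⌉₊ with hH
      have hHX : X ≤ H := Nat.le_ceil _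
      have hHX2 : (H : ℝ) ≤ 2 * X := by
        have := Nat.ceil_lt_add_one hX0.le
        linarith
      have hHH₀ : H₀ ≤ H := by
        have : (H₀ : ℝ) ≤ H := (hX₁2.trans hXX).trans hHX
        exact_mod_cast this
      obtain ⟨E', -, hE'2, hE'3⟩ := hH₀ H hHH₀ (fun _ => 0) (fun _ => 0)
      have hhalf : (1 : ℝ) ≤ X ^ (1 / 2 : ℝ) := Real.one_le_rpow hX (by norm_num)
      obtain ⟨hfin1, hcard1⟩ := inputs_count (d := d) hhalf
      have hlogX : 2 * max L 1 ≤ Real.log X := hX₁3.trans (Real.log_le_log (by linarith) hXX)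
      have hlogH : Real.log H ≤ 2 * Real.log X := by
        have h2 : (H : ℝ) ≤ X * X := by nlinarith
        calc Real.log H ≤ Real.log (X * X) := Real.log_le_log (by linarith) h2
          _ = 2 * Real.log X := by
              rw [Real.log_mul hX0.ne' hX0.ne']
              ring
      have hlogH0 : 0 ≤ Real.log H := Real.log_nonneg (by linarith)
      have hsub : {t : (Fin d → ℤ) × (Fin d → ℤ) | t ∈ {t : (Fin d → ℤ) × (Fin d → ℤ) |
          ¬ Certified (upTo f) hd (Real.log (size t.1 t.2) ^ A) t.1 t.2} ∧ ∀ j, |(vec t.1 t.2 j : ℝ)| ≤ X} ⊆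
          {t : (Fin d → ℤ) × (Fin d → ℤ) | ∀ j, |(vec t.1 t.2 j : ℝ)| ≤ X ^ (1 / 2 : ℝ)} ∪ (E' : Set _) := by
        rintro ⟨c, a⟩ ⟨ht1, ht2⟩
        by_cases hs : ∀ j, |(vec c a j : ℝ)| ≤ X ^ (1 / 2 : ℝ)
        · exact Or.inl hs
        · right
          by_contra hnot
          apply ht1
          push Not at hs
          obtain ⟨j, hj⟩ := hs
          have hsz : X ^ (1 / 2 : ℝ) ≤ size c a := by
            have := norm_le_pi_norm (fun i => (vec c a i : ℝ)) j
            rw [Real.norm_eq_abs] at this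
            exact hj.le.trans this
          have hlog1 : Real.log X ≤ 2 * Real.log (size c a) := by
            have h1 := Real.log_le_log (by positivity) hsz
            rw [Real.log_rpow hX0] at h1
            linarith
          have hlog2 : max L 1 ≤ Real.log (size c a) := by linarith
          have hlog3 : (1 : ℝ) ≤ Real.log (size c a) := (le_max_right _ _).trans hlog2
          have g3 := hL (Real.log (size c a)) ((le_max_left _ _).trans hlog2)
          have hY : Real.log H ^ ((1 + A) / 2) ≤ Real.log (size c a) ^ A := by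
            calc Real.log H ^ ((1 + A) / 2) ≤ (4 * Real.log (size c a)) ^ ((1 + A) / 2) :=
                  Real.rpow_le_rpow hlogH0 (by linarith) (by linarith)
              _ = (4 : ℝ) ^ ((1 + A) / 2) * Real.log (size c a) ^ ((1 + A) / 2) :=
                  Real.mul_rpow (by norm_num) (by linarith)
              _ ≤ Real.log (size c a) ^ (A - (1 + A) / 2) * Real.log (size c a) ^ ((1 + A) / 2) :=
                  mul_le_mul_of_nonneg_right g3 (Real.rpow_nonneg (by linarith) _)
              _ = Real.log (size c a) ^ A := by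
                  rw [← Real.rpow_add (by linarith)]
                  congr 1
                  ring
          have hbox : ∀ i, |vec c a i| ≤ (H : ℤ) := by
            intro i
            have h3 := (ht2 i).trans hHX
            have h4 : |((vec c a i : ℤ) : ℝ)| ≤ ((H : ℤ) : ℝ) := by
              push_cast
              exact h3
            exact_mod_cast h4
          have hmem : ((c, a) : (Fin d → ℤ) × (Fin d → ℤ)) ∈
              (box (fun _ => 0) H ×ˢ box (fun _ => 0) H) \ E' := by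
            rw [Finset.mem_sdiff, Finset.mem_product, mem_box, mem_box]
            refine ⟨⟨fun i => ?_, fun i => ?_⟩, hnot⟩
            · have := hbox (Fin.castAdd d i)
              rw [vec, Fin.append_left] at this
              simpa using this
            · have := hbox (Fin.natAdd d i)
              rw [vec, Fin.append_right] at this
              simpa using this
          obtain ⟨h5, p, hp1, hp2, hp3⟩ := hE'3 (c, a) hmem
          refine ⟨fun hc => ?_, p, hp1, hp2.trans hY, hp3⟩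
          exact (upTo_iff f _ _).2 ⟨⌊Real.log H ^ ((1 + A) / 2)⌋₊, Nat.floor_le_floor hY, h5 hc⟩
      have h5 := (Set.ncard_le_ncard hsub (hfin1.union (Finset.finite_toSet _))).trans (Set.ncard_union_le _ _)
      rw [Set.ncard_coe_finset] at h5
      have h5' : (({t : (Fin d → ℤ) × (Fin d → ℤ) | t ∈ {t : (Fin d → ℤ) × (Fin d → ℤ) |
          ¬ Certified (upTo f) hd (Real.log (size t.1 t.2) ^ A) t.1 t.2} ∧
          ∀ j, |(vec t.1 t.2 j : ℝ)| ≤ X}.ncard : ℕ) : ℝ) ≤
          ({t : (Fin d → ℤ) × (Fin d → ℤ) | ∀ j, |(vec t.1 t.2 j : ℝ)| ≤ X ^ (1 / 2 : ℝ)}.ncard : ℝ) + E'.card := by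
        exact_mod_cast h5
      have h6 : (3 * X ^ (1 / 2 : ℝ)) ^ (2 * d) ≤ 3 ^ (2 * d) * X ^ (2 * (d : ℝ) - δ + ε) := by
        rw [mul_pow]
        apply mul_le_mul_of_nonneg_left _ (by positivity)
        rw [← Real.rpow_natCast, ← Real.rpow_mul hX0.le]
        apply Real.rpow_le_rpow_of_exponent_le hX
        push_cast
        linarith
      have h7 : (E'.card : ℝ) ≤ 5 ^ (2 * d) * X ^ (2 * (d : ℝ) - δ + ε) := by
        have h8 : (2 * (H : ℝ) + 1) ^ (2 * d) ≤ (5 * X) ^ (2 * d) :=
          pow_le_pow_left₀ (by positivity) (by linarith) _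
        have h9 : (H : ℝ) ^ (-δ₀) ≤ X ^ (-δ) := by
          calc (H : ℝ) ^ (-δ₀) ≤ X ^ (-δ₀) := Real.rpow_le_rpow_of_nonpos hX0 hHX (by linarith)
            _ ≤ X ^ (-δ) := Real.rpow_le_rpow_of_exponent_le hX (neg_le_neg (min_le_left _ _))
        calc (E'.card : ℝ) ≤ (2 * (H : ℝ) + 1) ^ (2 * d) * (H : ℝ) ^ (-δ₀) := hE'2
          _ ≤ (5 * X) ^ (2 * d) * X ^ (-δ) :=
              mul_le_mul h8 h9 (Real.rpow_nonneg (Nat.cast_nonneg H) _) (by positivity)
          _ = 5 ^ (2 * d) * X ^ (2 * (d : ℝ) - δ) := by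
              rw [mul_pow, mul_assoc, ← Real.rpow_natCast X (2 * d), ← Real.rpow_add hX0]
              push_cast
              ring_nf
          _ ≤ 5 ^ (2 * d) * X ^ (2 * (d : ℝ) - δ + ε) := by
              apply mul_le_mul_of_nonneg_left _ (by positivity)
              exact Real.rpow_le_rpow_of_exponent_le hX (by linarith)
      have h10 : 0 ≤ (3 * X₁) ^ (2 * d) * X ^ (2 * (d : ℝ) - δ + ε) := by positivity
      calc _ ≤ _ := h5'
        _ ≤ 3 ^ (2 * d) * X ^ (2 * (d : ℝ) - δ + ε) + 5 ^ (2 * d) * X ^ (2 * (d : ℝ) - δ + ε) :=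
            add_le_add (hcard1.trans h6) h7
        _ ≤ _ := by
            rw [add_mul, add_mul]
            linarith)
    q hσ
  refine ⟨E, hE1, fun α hα => ?_⟩
  obtain ⟨T₀, hT⟩ := hE2 α hα ()
  exact ⟨T₀, fun T hTT c a h => not_not.1 (hT T hTT (c, a) h)⟩

end Pool.Agent.Results.MP_8d13b5_lc.InputsInResidueClasses
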