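import Pool.Agent.Results.MP_8d13b5_lc.SmoothedAnalysis
import Pool.Agent.V11285.WD

/-!
# The Skolem Problem: ALL inputs near random perturbations of arbitrary inputs are easy

There is one total errorless algorithm `f`, increasing in its parameter, with the following property. Let `b_n` be
arbitrary inputs (coefficients and initial values) of order `d`, of any size, and let `v_n` be a sequence such as `2 ^ n`. For
all `α ∈ ℝ^(2d)` outside a set of Hausdorff dimension `< 2 d` and all large `n`, ALL inputs at distance at most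
`v_n ^ θ` from `b_n + α v_n` are certified to be zero-free by a prime `p ≤ (log v_n) ^ A`, `A > 1` arbitrary.
-/

set_option autoImplicit false

open Filter Topology MeasureTheory

namespace Pool.Agent.Results.MP_8d13b5_lc.WindowsOfInputs

open Pool.Agent.H884R2.Sko Pool.Agent.H692R2.USS
open scoped ENNReal NNReal

/-- the exponent of convergence of the sequence `v` is at most `τ` -/
def ExpLe (v : ℕ → ℝ) (τ : ℝ) : Prop := ∀ t : ℝ, τ < t → Summable (fun k : ℕ => (v k) ^ (-t))

/-- The algorithm `f` with the parameter `⌊Y⌋` recognises that the sequence with the coefficients `c` (with `c_d ≠ 0`) and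
the initial values `a` has no zero, and there is a prime `p ≤ Y` modulo which the sequence has period `(p - 1) / 2` and no
zero term. -/
def Certified (f : ℕ × (List (ℕ × ℕ) × List (ℕ × ℕ)) → Bool) {d : ℕ} (hd : 1 ≤ d) (Y : ℝ) (c a : Fin d → ℤ) : Prop :=
  (c ⟨d - 1, by omega⟩ ≠ 0 → f (⌊Y⌋₊, (code c, code a)) = true) ∧
  ∃ p : ℕ, p.Prime ∧ (p : ℝ) ≤ Y ∧ ∀ u, IsSeq c a u →
    (∀ m, (p : ℤ) ∣ u (m + (p - 1) / 2) - u m) ∧ ∀ m, ¬ (p : ℤ) ∣ u m

/-- the algorithm which tries all smaller parameters -/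
def upTo {α : Type} (f : ℕ × α → Bool) (x : ℕ × α) : Bool :=
  Nat.rec (f (0, x.2)) (fun k r => r || f (k + 1, x.2)) x.1

theorem upTo_iff {α : Type} (f : ℕ × α → Bool) (p : α) (y : ℕ) :
    upTo f (y, p) = true ↔ ∃ z, z ≤ y ∧ f (z, p) = true := by
  induction y with
  | zero =>
    constructor
    · intro h
      exact ⟨0, le_rfl, h⟩
    · rintro ⟨z, hz, h⟩
      obtain rfl := Nat.le_zero.1 hz
      exact h
  | succ y ih =>
    have e : upTo f (y + 1, p) = (upTo f (y, p) || f (y + 1, p)) := rfl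
    rw [e, Bool.or_eq_true, ih]
    constructor
    · rintro (⟨z, hz, h⟩ | h)
      · exact ⟨z, hz.trans (Nat.le_succ y), h⟩
      · exact ⟨y + 1, le_rfl, h⟩
    · rintro ⟨z, hz, h⟩
      rcases Nat.lt_or_ge z (y + 1) with h1 | h1
      · exact Or.inl ⟨z, Nat.lt_succ_iff.1 h1, h⟩
      · obtain rfl : z = y + 1 := le_antisymm hz h1
        exact Or.inr h

theorem computable_upTo {α : Type} [Primcodable α] {f : ℕ × α → Bool} (hf : Computable f) : Computable (upTo f) := by
  unfold upTo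
  refine Computable.nat_rec (f := fun x : ℕ × α => x.1) (g := fun x : ℕ × α => f (0, x.2))
    (h := fun (x : ℕ × α) (q : ℕ × Bool) => q.2 || f (q.1 + 1, x.2)) Computable.fst ?_ ?_
  · exact hf.comp (Computable.pair (Computable.const 0) Computable.snd)
  · refine (Primrec.or.to_comp).comp₂ ?_ ?_
    · exact (Computable.snd.comp Computable.snd).to₂
    · exact (hf.comp (Computable.pair (Computable.succ.comp (Computable.fst.comp Computable.snd))
        (Computable.snd.comp Computable.fst))).to₂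

/-- **All inputs near random perturbations of arbitrary inputs.** There is a total computable errorless `f`, increasing in
its parameter, such that for all orders `d` and all `A > 1` there is `0 < δ ≤ 1` with the following properties. Let `b_n` be
arbitrary integer vectors of length `2 d`.

(1) Let `v_n ≥ 1` have exponent of convergence at most `τ` and let `θ < 1`. For all `α ∈ ℝ^(2d)` outside a set of Hausdorff
dimension at most `(2 d - δ + τ) / (1 - θ)` there is `n₀` such that for all `n ≥ n₀` ALL inputs `(c, a)` at distance at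
most `v_n ^ θ` (maximum norm) from `b_n + α v_n` are certified with `Y = (log v_n) ^ A`.

(2) If `τ = 0`, for instance if `v_n = b ^ n`, the same holds for almost all `α`, with `θ = δ / (4 d)`. -/
theorem result :
    ∃ f : ℕ × (List (ℕ × ℕ) × List (ℕ × ℕ)) → Bool, Computable f ∧
      (∀ (y : ℕ) (p : List (ℕ × ℕ) × List (ℕ × ℕ)) (u : ℕ → ℤ), IsLRS p u → f (y, p) = true → ∀ n, u n ≠ 0) ∧
      (∀ (y z : ℕ) (p : List (ℕ × ℕ) × List (ℕ × ℕ)), y ≤ z → f (y, p) = true → f (z, p) = true) ∧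
      (∀ (d : ℕ) (hd : 1 ≤ d) (A : ℝ), 1 < A → ∃ δ : ℝ, 0 < δ ∧ δ ≤ 1 ∧
        (∀ (v : ℕ → ℝ) (τ θ : ℝ), (∀ n, 1 ≤ v n) → 0 ≤ τ → ExpLe v τ → θ < 1 → ∀ b : ℕ → Fin (d + d) → ℤ,
          ∃ E : Set (Fin (d + d) → ℝ), dimH E ≤ ENNReal.ofReal ((2 * d - δ + τ) / (1 - θ)) ∧
            ∀ α : Fin (d + d) → ℝ, α ∉ E → ∃ n₀ : ℕ, ∀ n : ℕ, n₀ ≤ n → ∀ c a : Fin d → ℤ,
              (∀ i, |((Fin.append c a i : ℤ) : ℝ) - b n i - α i * v n| ≤ (v n) ^ θ) →
                Certified f hd (Real.log (v n) ^ A) c a) ∧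
        (∀ v : ℕ → ℝ, (∀ n, 1 ≤ v n) → ExpLe v 0 → ∀ b : ℕ → Fin (d + d) → ℤ,
          ∀ᵐ α : Fin (d + d) → ℝ, ∃ n₀ : ℕ, ∀ n : ℕ, n₀ ≤ n → ∀ c a : Fin d → ℤ,
            (∀ i, |((Fin.append c a i : ℤ) : ℝ) - b n i - α i * v n| ≤ (v n) ^ (δ / (4 * d))) →
              Certified f hd (Real.log (v n) ^ A) c a)) ∧
      (∀ b : ℝ, 1 < b → ExpLe (fun k : ℕ => b ^ k) 0) := by
  classical
  obtain ⟨f, hf, herr, hmain⟩ := SmoothedAnalysis.result
  refine ⟨upTo f, computable_upTo hf, ?_, ?_, fun d hd A hA => ?_, fun b hb => Pool.Agent.Y854.GM.expLe_geom b hb⟩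
  · intro y p u hp hy
    obtain ⟨z, -, hz⟩ := (upTo_iff f p y).1 hy
    exact herr z p u hp hz
  · intro y z p hyz hy
    obtain ⟨w, hw, hw2⟩ := (upTo_iff f p y).1 hy
    exact (upTo_iff f p z).2 ⟨w, hw.trans hyz, hw2⟩
  obtain ⟨δ₀, hδ₀, H₀, hH₀⟩ := hmain d hd ((1 + A) / 2) (by linarith)
  set δ : ℝ := min δ₀ 1 with hδ
  have hδp : 0 < δ := lt_min hδ₀ one_pos
  have hδ1 : δ ≤ 1 := min_le_right _ _
  have hd1 : (1 : ℝ) ≤ d := by exact_mod_cast hd
  have key : ∀ (v : ℕ → ℝ) (τ θ : ℝ), (∀ n, 1 ≤ v n) → 0 ≤ τ → ExpLe v τ → θ < 1 → ∀ b : ℕ → Fin (d + d) → ℤ,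
      ∃ E : Set (Fin (d + d) → ℝ), dimH E ≤ ENNReal.ofReal ((2 * d - δ + τ) / (1 - θ)) ∧
        ∀ α : Fin (d + d) → ℝ, α ∉ E → ∃ n₀ : ℕ, ∀ n : ℕ, n₀ ≤ n → ∀ c a : Fin d → ℤ,
          (∀ i, |((Fin.append c a i : ℤ) : ℝ) - b n i - α i * v n| ≤ (v n) ^ θ) →
            Certified (upTo f) hd (Real.log (v n) ^ A) c a := by
    intro v τ θ hpos hτ hv hθ b
    have htv : Tendsto v atTop atTop :=
      Pool.Agent.Y854.GM.tendsto_of_expLe (fun k => lt_of_lt_of_le one_pos (hpos k)) hτ hv
    obtain ⟨E, hE1, hE2⟩ := Pool.Agent.V11285.WD.windowsD (d := d + d)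
      (fun n => {t : (Fin d → ℤ) × (Fin d → ℤ) | ¬ Certified (upTo f) hd (Real.log (v n) ^ A) t.1 t.2})
      (fun n t i => ((Fin.append t.1 t.2 i : ℤ) : ℝ) - b n i) (v := v) (s := 2 * d - δ) (τ := τ) (θ := θ)
      hpos hτ hv (by linarith) hθ (by
        intro K ε hε
        have hK0 : (0 : ℝ) ≤ K := Nat.cast_nonneg K
        have hlogt : Tendsto (fun n => Real.log (v n)) atTop atTop := Real.tendsto_log_atTop.comp htv
        have hexp : 0 < A - (1 + A) / 2 := by linarith
        have h1 : Tendsto (fun n => (Real.log (v n)) ^ (A - (1 + A) / 2)) atTop atTop :=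
          (tendsto_rpow_atTop hexp).comp hlogt
        obtain ⟨n₁, hn₁⟩ := ((htv.eventually_ge_atTop (max (H₀ : ℝ) ((K : ℝ) + 2))).and
          ((hlogt.eventually_ge_atTop 1).and (h1.eventually_ge_atTop ((2 : ℝ) ^ ((1 + A) / 2))))).exists_forall_of_atTop
        refine ⟨(2 * (K : ℝ) + 5) ^ (2 * d), n₁, fun n hn => ?_⟩
        obtain ⟨g1, g2, g3⟩ := hn₁ n hn
        have hv1 := hpos n
        have hv0 : 0 < v n := by linarith
        set H : ℕ := ⌈((K : ℝ) + 1) * v n⌉₊ with hH
        have hHv : ((K : ℝ) + 1) * v n ≤ H := Nat.le_ceil _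
        have hHv1 : v n ≤ H := by
          refine le_trans ?_ hHv
          nlinarith
        have hH2 : (H : ℝ) ≤ ((K : ℝ) + 2) * v n := by
          have := Nat.ceil_lt_add_one (show 0 ≤ ((K : ℝ) + 1) * v n by positivity)
          nlinarith
        have hHH₀ : H₀ ≤ H := by
          have : (H₀ : ℝ) ≤ H := ((le_max_left _ _).trans g1).trans hHv1
          exact_mod_cast this
        obtain ⟨E', -, hE'2, hE'3⟩ := hH₀ H hHH₀ (fun i => b n (Fin.castAdd d i)) (fun i => b n (Fin.natAdd d i))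
        have hlogH : Real.log H ≤ 2 * Real.log (v n) := by
          have h2 : (H : ℝ) ≤ v n * v n := by
            refine hH2.trans (mul_le_mul_of_nonneg_right ((le_max_right _ _).trans g1) hv0.le)
          calc Real.log H ≤ Real.log (v n * v n) := Real.log_le_log (by linarith) h2
            _ = 2 * Real.log (v n) := by
                rw [Real.log_mul hv0.ne' hv0.ne']
                ring
        have hlogH0 : 0 ≤ Real.log H := Real.log_nonneg (by linarith)
        have hY : Real.log H ^ ((1 + A) / 2) ≤ Real.log (v n) ^ A := by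
          calc Real.log H ^ ((1 + A) / 2) ≤ (2 * Real.log (v n)) ^ ((1 + A) / 2) :=
                Real.rpow_le_rpow hlogH0 hlogH (by linarith)
            _ = (2 : ℝ) ^ ((1 + A) / 2) * Real.log (v n) ^ ((1 + A) / 2) :=
                Real.mul_rpow (by norm_num) (by linarith)
            _ ≤ Real.log (v n) ^ (A - (1 + A) / 2) * Real.log (v n) ^ ((1 + A) / 2) :=
                mul_le_mul_of_nonneg_right g3 (Real.rpow_nonneg (by linarith) _)
            _ = Real.log (v n) ^ A := by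
                rw [← Real.rpow_add (by linarith)]
                congr 1
                ring
        have hsub : {t : (Fin d → ℤ) × (Fin d → ℤ) | t ∈ {t : (Fin d → ℤ) × (Fin d → ℤ) |
            ¬ Certified (upTo f) hd (Real.log (v n) ^ A) t.1 t.2} ∧
              ∀ i, |((Fin.append t.1 t.2 i : ℤ) : ℝ) - b n i| ≤ ((K : ℝ) + 1) * v n} ⊆ (E' : Set _) := by
          rintro ⟨c, a⟩ ⟨ht1, ht2⟩
          by_contra hnot
          apply ht1
          have hbox : ∀ i, |Fin.append c a i - b n i| ≤ (H : ℤ) := by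
            intro i
            have h3 := (ht2 i).trans hHv
            have h4 : |((Fin.append c a i - b n i : ℤ) : ℝ)| ≤ ((H : ℤ) : ℝ) := by
              push_cast
              exact h3
            exact_mod_cast h4
          have hmem : ((c, a) : (Fin d → ℤ) × (Fin d → ℤ)) ∈
              (box (fun i => b n (Fin.castAdd d i)) H ×ˢ box (fun i => b n (Fin.natAdd d i)) H) \ E' := by
            rw [Finset.mem_sdiff, Finset.mem_product, mem_box, mem_box]
            refine ⟨⟨fun i => ?_, fun i => ?_⟩, hnot⟩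
            · have := hbox (Fin.castAdd d i)
              rwa [Fin.append_left] at this
            · have := hbox (Fin.natAdd d i)
              rwa [Fin.append_right] at this
          obtain ⟨h5, p, hp1, hp2, hp3⟩ := hE'3 (c, a) hmem
          refine ⟨fun hc => ?_, p, hp1, hp2.trans hY, hp3⟩
          exact (upTo_iff f _ _).2 ⟨⌊Real.log H ^ ((1 + A) / 2)⌋₊, Nat.floor_le_floor hY, h5 hc⟩
        have hfin : Set.Finite (E' : Set ((Fin d → ℤ) × (Fin d → ℤ))) := Finset.finite_toSet _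
        refine ⟨hfin.subset hsub, ?_⟩
        have hcard := Set.ncard_le_ncard hsub hfin
        rw [Set.ncard_coe_finset] at hcard
        have hcard' : (({t : (Fin d → ℤ) × (Fin d → ℤ) | t ∈ {t : (Fin d → ℤ) × (Fin d → ℤ) |
            ¬ Certified (upTo f) hd (Real.log (v n) ^ A) t.1 t.2} ∧
              ∀ i, |((Fin.append t.1 t.2 i : ℤ) : ℝ) - b n i| ≤ ((K : ℝ) + 1) * v n}.ncard : ℕ) : ℝ) ≤
            E'.card := by exact_mod_cast hcard
        refine hcard'.trans (hE'2.trans ?_)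
        have h6 : (2 * (H : ℝ) + 1) ^ (2 * d) ≤ ((2 * (K : ℝ) + 5) * v n) ^ (2 * d) := by
          apply pow_le_pow_left₀ (by positivity)
          nlinarith
        have h7 : (H : ℝ) ^ (-δ₀) ≤ (v n) ^ (-δ) := by
          calc (H : ℝ) ^ (-δ₀) ≤ (v n) ^ (-δ₀) := Real.rpow_le_rpow_of_nonpos hv0 hHv1 (by linarith)
            _ ≤ (v n) ^ (-δ) := Real.rpow_le_rpow_of_exponent_le hv1 (neg_le_neg (min_le_left _ _))
        calc (2 * (H : ℝ) + 1) ^ (2 * d) * (H : ℝ) ^ (-δ₀)
            ≤ ((2 * (K : ℝ) + 5) * v n) ^ (2 * d) * (v n) ^ (-δ) :=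
              mul_le_mul h6 h7 (Real.rpow_nonneg (Nat.cast_nonneg H) _) (by positivity)
          _ = (2 * (K : ℝ) + 5) ^ (2 * d) * (v n) ^ (2 * (d : ℝ) - δ) := by
              rw [mul_pow, mul_assoc, ← Real.rpow_natCast (v n) (2 * d), ← Real.rpow_add hv0]
              push_cast
              ring_nf
          _ ≤ (2 * (K : ℝ) + 5) ^ (2 * d) * (v n) ^ (2 * (d : ℝ) - δ + ε) := by
              apply mul_le_mul_of_nonneg_left _ (by positivity)
              exact Real.rpow_le_rpow_of_exponent_le hv1 (by linarith))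
    refine ⟨E, hE1, fun α hα => ?_⟩
    obtain ⟨n₀, hn₀⟩ := hE2 α hα
    refine ⟨n₀, fun n hn c a hw => ?_⟩
    by_contra hcon
    exact hn₀ n hn (c, a) hcon hw
  refine ⟨δ, hδp, hδ1, key, fun v hpos hv b => ?_⟩
  set θ : ℝ := δ / (4 * d) with hθ
  have hθ0 : 0 < θ := by positivity
  have hθ1 : θ ≤ 1 / 4 := by
    rw [hθ, div_le_iff₀ (by positivity)]
    linarith
  obtain ⟨E, hE1, hE2⟩ := key v 0 θ hpos le_rfl hv (by linarith) b
  have hlt : dimH E < (((d + d : ℕ) : ℝ≥0) : ℝ≥0∞) := by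
    refine lt_of_le_of_lt hE1 ?_
    have h1 : (2 * (d : ℝ) - δ + 0) / (1 - θ) < ((d + d : ℕ) : ℝ) := by
      rw [div_lt_iff₀ (by linarith)]
      have h2 : (2 * (d : ℝ)) * θ = δ / 2 := by
        rw [hθ]
        field_simp
        ring
      push_cast
      nlinarith
    have e : ((((d + d : ℕ) : ℝ≥0) : ℝ≥0∞)).toReal = ((d + d : ℕ) : ℝ) := by
      rw [ENNReal.coe_toReal, NNReal.coe_natCast]
    rw [ENNReal.ofReal_lt_iff_lt_toReal, e]
    · exact h1
    · apply div_nonneg
      · linarith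
      · linarith
    · exact ENNReal.coe_ne_top
  have hvol : volume E = 0 := by
    have h1 := hausdorffMeasure_of_dimH_lt hlt
    have h2 : ((((d + d : ℕ) : ℝ≥0) : ℝ)) = (Fintype.card (Fin (d + d)) : ℝ) := by simp
    rw [h2, hausdorffMeasure_pi_real] at h1
    exact h1
  have hae : ∀ᵐ x : Fin (d + d) → ℝ, x ∉ E := measure_eq_zero_iff_ae_notMem.1 hvol
  filter_upwards [hae] with x hx
  exact hE2 x hx

end Pool.Agent.Results.MP_8d13b5_lc.WindowsOfInputs
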